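import Pool.Agent.W737.SB.Defs
import Pool.Agent.H801R2.CX.Montel

/-!
# Project SB, tasks SB-SHR and SB-FAR
-/

set_option autoImplicit false

open Metric Set Filter Topology Pool.Agent.W737.SB

namespace Pool.Agent.W732.SB

/-- ultralimits of uniformly bounded holomorphic discs -/
theorem mont {W : Type*} [NormedAddCommGroup W] [NormedSpace ℂ W] [FiniteDimensional ℂ W] {R : ℝ}
    {ι : Type*} (l : Ultrafilter ι) (φ : ι → ℂ → W)
    (hd : ∀ i, DifferentiableOn ℂ (φ i) (ball 0 1))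
    (hm : ∀ i, ∀ z ∈ ball (0 : ℂ) 1, ‖φ i z‖ ≤ R) :
    ∃ φ' : ℂ → W, DifferentiableOn ℂ φ' (ball 0 1) ∧
      ∀ z ∈ ball (0 : ℂ) 1, Tendsto (fun i => φ i z) l (𝓝 (φ' z)) := by
  have : ProperSpace W := FiniteDimensional.proper ℂ W
  have hpt : ∀ z : ℂ, ∃ y : W, z ∈ ball (0 : ℂ) 1 → Tendsto (fun i => φ i z) l (𝓝 y) := by
    intro z
    by_cases hz : z ∈ ball (0 : ℂ) 1
    · have hc : IsCompact (closedBall (0 : W) R) := isCompact_closedBall _ _
      obtain ⟨y, -, hy⟩ := hc.ultrafilter_le_nhds (l.map (fun i => φ i z)) (by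
        rw [le_principal_iff]
        change (fun i => φ i z) ⁻¹' _ ∈ (l : Filter ι)
        exact univ_mem' (fun i => mem_closedBall_zero_iff.2 (hm i z hz)))
      exact ⟨y, fun _ => hy⟩
    · exact ⟨0, fun h => absurd h hz⟩
  choose φ' hφ' using hpt
  have htlu : TendstoLocallyUniformlyOn φ φ' l (ball 0 1) :=
    Pool.Agent.H801R2.CX.tlu_pt isOpen_ball hd hm (fun z hz => hφ' z hz)
  exact ⟨φ', htlu.differentiableOn (Eventually.of_forall hd) isOpen_ball, hφ'⟩

/-- second order computation along a holomorphic disc in the boundary -/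
theorem line_second {n : ℕ} {ρ : V n → ℝ} (hρ : ContDiff ℝ 2 ρ) {g : ℂ → V n}
    (hg : DifferentiableOn ℂ g (ball 0 1)) (h0 : ∀ l ∈ ball (0 : ℂ) 1, ρ (g l) = 0)
    {l : ℂ} (hl : l ∈ ball (0 : ℂ) 1) (e : ℂ) :
    fderiv ℝ ρ (g l) (e • deriv g l) = 0 ∧
    fderiv ℝ (fderiv ℝ ρ) (g l) (e • deriv g l) (e • deriv g l) +
      fderiv ℝ ρ (g l) (e • (e • deriv (deriv g) l)) = 0 := by
  have hg2 : DifferentiableOn ℂ (deriv g) (ball 0 1) := hg.deriv isOpen_ball
  have hnear : ∀ᶠ s : ℝ in 𝓝 0, l + (s : ℂ) * e ∈ ball (0 : ℂ) 1 := by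
    have hc : Continuous (fun s : ℝ => l + (s : ℂ) * e) := by fun_prop
    have := hc.continuousAt (x := 0)
    apply this.eventually_mem
    apply isOpen_ball.mem_nhds
    simpa using hl
  have hlin : ∀ s : ℝ, HasDerivAt (fun s : ℝ => l + (s : ℂ) * e) e s := by
    intro s
    have h1 : HasDerivAt (fun s : ℝ => (s : ℂ)) 1 s := Complex.ofRealCLM.hasDerivAt
    have h2 := (h1.mul_const e).const_add l
    simpa using h2
  have hcurve : ∀ s : ℝ, l + (s : ℂ) * e ∈ ball (0 : ℂ) 1 →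
      HasDerivAt (fun s : ℝ => g (l + (s : ℂ) * e)) (e • deriv g (l + (s : ℂ) * e)) s := by
    intro s hs
    have h1 : HasDerivAt g (deriv g (l + (s : ℂ) * e)) (l + (s : ℂ) * e) :=
      (hg.differentiableAt (isOpen_ball.mem_nhds hs)).hasDerivAt
    exact h1.scomp s (hlin s)
  have hcurve2 : ∀ s : ℝ, l + (s : ℂ) * e ∈ ball (0 : ℂ) 1 →
      HasDerivAt (fun s : ℝ => deriv g (l + (s : ℂ) * e))
        (e • deriv (deriv g) (l + (s : ℂ) * e)) s := by
    intro s hs
    have h1 : HasDerivAt (deriv g) (deriv (deriv g) (l + (s : ℂ) * e)) (l + (s : ℂ) * e) :=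
      (hg2.differentiableAt (isOpen_ball.mem_nhds hs)).hasDerivAt
    exact h1.scomp s (hlin s)
  have hd1 : ∀ x, HasFDerivAt ρ (fderiv ℝ ρ x) x := fun x =>
    (hρ.differentiable (by norm_num)).differentiableAt.hasFDerivAt
  have hd2 : ∀ x, HasFDerivAt (fderiv ℝ ρ) (fderiv ℝ (fderiv ℝ ρ) x) x := fun x =>
    ((hρ.fderiv_right (m := 1) (by norm_num)).differentiable (by norm_num)).differentiableAt.hasFDerivAt
  -- first derivative
  have hfirst : ∀ᶠ s : ℝ in 𝓝 0,
      fderiv ℝ ρ (g (l + (s : ℂ) * e)) (e • deriv g (l + (s : ℂ) * e)) = 0 := by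
    filter_upwards [hnear.eventually_nhds] with s hs
    have h1 := (hd1 (g (l + (s : ℂ) * e))).comp_hasDerivAt s (hcurve s hs.self_of_nhds)
    have h2 : HasDerivAt (fun s : ℝ => ρ (g (l + (s : ℂ) * e))) 0 s := by
      refine (hasDerivAt_const s (0 : ℝ)).congr_of_eventuallyEq ?_
      filter_upwards [hs] with r hr
      exact h0 _ hr
    exact h1.unique h2
  have hz : l + ((0 : ℝ) : ℂ) * e = l := by simp
  have hl0 : l + ((0 : ℝ) : ℂ) * e ∈ ball (0 : ℂ) 1 := by rw [hz]; exact hl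
  have hA := hfirst.self_of_nhds
  rw [hz] at hA
  refine ⟨hA, ?_⟩
  have h3 : HasDerivAt (fun s : ℝ => fderiv ℝ ρ (g (l + (s : ℂ) * e)))
      (fderiv ℝ (fderiv ℝ ρ) (g (l + ((0 : ℝ) : ℂ) * e)) (e • deriv g (l + ((0 : ℝ) : ℂ) * e))) 0 :=
    (hd2 (g (l + ((0 : ℝ) : ℂ) * e))).comp_hasDerivAt (0 : ℝ) (hcurve 0 hl0)
  have h4 : HasDerivAt (fun s : ℝ => e • deriv g (l + (s : ℂ) * e))
      (e • (e • deriv (deriv g) (l + ((0 : ℝ) : ℂ) * e))) 0 := (hcurve2 0 hl0).const_smul e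
  have h5 := h3.clm_apply h4
  have h6 : HasDerivAt (fun s : ℝ =>
      fderiv ℝ ρ (g (l + (s : ℂ) * e)) (e • deriv g (l + (s : ℂ) * e))) 0 0 := by
    refine (hasDerivAt_const (0 : ℝ) (0 : ℝ)).congr_of_eventuallyEq ?_
    filter_upwards [hfirst] with s hs
    exact hs
  have h7 := h5.unique h6
  rw [hz] at h7
  exact h7

/-- boundary discs consist of bad points where the disc is immersed -/
theorem bad_of {n : ℕ} {ρ : V n → ℝ} (hρ : ContDiff ℝ 2 ρ) {g : ℂ → V n}
    (hg : DifferentiableOn ℂ g (ball 0 1)) (h0 : ∀ l ∈ ball (0 : ℂ) 1, ρ (g l) = 0)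
    {l : ℂ} (hl : l ∈ ball (0 : ℂ) 1) (hd : deriv g l ≠ 0) : Bad ρ (g l) := by
  obtain ⟨a1, a2⟩ := line_second hρ hg h0 hl 1
  obtain ⟨b1, b2⟩ := line_second hρ hg h0 hl Complex.I
  rw [one_smul] at a1 a2
  rw [one_smul, one_smul] at a2
  refine ⟨h0 l hl, deriv g l, hd, a1, b1, ?_⟩
  have hI : Complex.I • (Complex.I • deriv (deriv g) l) = -(deriv (deriv g) l) := by
    rw [smul_smul, Complex.I_mul_I, neg_one_smul]
  rw [hI, map_neg] at b2
  unfold H4
  linarith

theorem t_shr : S_shr := by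
  intro n Ω ρ p hD hp hbad t ε ht hε
  by_contra hcon
  have h1 : ∀ j : ℕ, ∃ (z : V n) (f F : V n → V n) (x : V n), z ∈ Ω ∧
      ‖z - p‖ < 1 / ((j : ℝ) + 1) ∧ Fr Ω f F z ∧ ‖x‖ ≤ t ∧ ε ≤ ‖f x - p‖ := by
    intro j
    by_contra h
    apply hcon
    refine ⟨1 / ((j : ℝ) + 1), by positivity, ?_⟩
    intro z hz hzp f F hF x hx
    by_contra h2
    exact h ⟨z, f, F, x, hz, hzp, hF, hx, not_lt.1 h2⟩
  choose z f F x hz hzp hFr hx hfx using h1
  have ht0 : 0 ≤ t := (norm_nonneg (x 0)).trans (hx 0)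
  have hρc : Continuous ρ := hD.smooth.continuous
  have hΩo : IsOpen Ω := by
    rw [hD.eq]
    exact isOpen_lt hρc continuous_const
  set t' : ℝ := (t + 1) / 2 with ht'
  have ht'0 : 0 < t' := by linarith
  have ht'1 : t' < 1 := by linarith
  have htt' : t ≤ t' := by linarith
  set u : ℕ → V n := fun j => ((t'⁻¹ : ℝ) : ℂ) • x j with hu
  have hu1 : ∀ j, ‖u j‖ ≤ 1 := by
    intro j
    simp only [hu, norm_smul, Complex.norm_real, Real.norm_eq_abs]
    rw [abs_of_pos (inv_pos.2 ht'0), inv_mul_le_iff₀ ht'0]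
    linarith [hx j]
  have hlu : ∀ j, ∀ l ∈ ball (0 : ℂ) 1, l • u j ∈ ball (0 : V n) 1 := by
    intro j l hl
    rw [mem_ball_zero_iff] at hl ⊢
    rw [norm_smul]
    calc ‖l‖ * ‖u j‖ ≤ ‖l‖ * 1 := by gcongr; exact hu1 j
      _ < 1 := by linarith
  set g : ℕ → ℂ → V n := fun j l => f j (l • u j) with hg
  have hgd : ∀ j, DifferentiableOn ℂ (g j) (ball 0 1) := by
    intro j
    refine (hFr j).hf.comp ?_ (fun l hl => hlu j l hl)
    exact (differentiable_id.smul_const (u j)).differentiableOn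
  have hgm : ∀ j, ∀ l ∈ ball (0 : ℂ) 1, g j l ∈ Ω := fun j l hl => (hFr j).hfm (hlu j l hl)
  obtain ⟨R, hR⟩ := hD.bdd.subset_closedBall (0 : V n)
  have hgb : ∀ j, ∀ l ∈ ball (0 : ℂ) 1, ‖g j l‖ ≤ R := by
    intro j l hl
    have := hR (hgm j l hl)
    rwa [mem_closedBall_zero_iff] at this
  let U : Ultrafilter ℕ := hyperfilter ℕ
  have hUle : (U : Filter ℕ) ≤ atTop := Nat.hyperfilter_le_atTop
  obtain ⟨G, hGd, hGl⟩ := mont U g hgd hgb
  have h0 : (0 : ℂ) ∈ ball (0 : ℂ) 1 := mem_ball_self one_pos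
  have hg0 : ∀ j, g j 0 = z j := by
    intro j
    simp only [hg, zero_smul]
    exact (hFr j).base
  have hzlim : Tendsto z U (𝓝 p) := by
    refine Tendsto.mono_left ?_ hUle
    rw [tendsto_iff_norm_sub_tendsto_zero]
    exact squeeze_zero (fun j => norm_nonneg _) (fun j => (hzp j).le)
      tendsto_one_div_add_atTop_nhds_zero_nat
  have hG0 : G 0 = p := by
    have := hGl 0 h0
    simp only [hg0] at this
    exact tendsto_nhds_unique this hzlim
  have ht'mem : ((t' : ℝ) : ℂ) ∈ ball (0 : ℂ) 1 := by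
    rw [mem_ball_zero_iff, Complex.norm_real, Real.norm_eq_abs, abs_of_pos ht'0]
    exact ht'1
  have hgt' : ∀ j, g j t' = f j (x j) := by
    intro j
    simp only [hg, hu, smul_smul]
    congr 1
    rw [← Complex.ofReal_mul, mul_inv_cancel₀ ht'0.ne']
    simp
  have hGt' : ε ≤ ‖G t' - p‖ := by
    have h2 : Tendsto (fun j => ‖g j t' - p‖) U (𝓝 ‖G t' - p‖) :=
      ((hGl _ ht'mem).sub_const p).norm
    refine ge_of_tendsto h2 (Eventually.of_forall fun j => ?_)
    rw [hgt' j]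
    exact hfx j
  -- the fixed frame
  obtain ⟨f₀, F₀, z₀, hFr₀⟩ := hD.frame
  have hpn : p ∉ Ω := by
    rw [hD.eq]
    simp [hp]
  have hγd : ∀ j, DifferentiableOn ℂ (fun l => F₀ (g j l)) (ball 0 1) := fun j =>
    hFr₀.hF.comp (hgd j) (fun l hl => hgm j l hl)
  have hγb : ∀ j, ∀ l ∈ ball (0 : ℂ) 1, ‖F₀ (g j l)‖ ≤ 1 := by
    intro j l hl
    have := hFr₀.hFm (hgm j l hl)
    rw [mem_ball_zero_iff] at this
    exact this.le
  obtain ⟨γ, hγd', hγl⟩ := mont U (fun j l => F₀ (g j l)) hγd hγb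
  have hγ1 : ∀ l ∈ ball (0 : ℂ) 1, ‖γ l‖ ≤ 1 := by
    intro l hl
    exact le_of_tendsto (hγl l hl).norm (Eventually.of_forall fun j => hγb j l hl)
  have hγ0 : ‖γ 0‖ = 1 := by
    refine le_antisymm (hγ1 0 h0) ?_
    by_contra hlt
    rw [not_le] at hlt
    have hmem : γ 0 ∈ ball (0 : V n) 1 := mem_ball_zero_iff.2 hlt
    have hc : ContinuousAt f₀ (γ 0) :=
      (hFr₀.hf.continuousOn).continuousAt (isOpen_ball.mem_nhds hmem)
    have h2 := hc.tendsto.comp (hγl 0 h0)
    have h3 : (f₀ ∘ fun j => F₀ (g j 0)) = z := by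
      funext j
      simp only [Function.comp]
      rw [hg0 j]
      exact hFr₀.right _ (hz j)
    rw [h3] at h2
    have h4 := tendsto_nhds_unique h2 hzlim
    exact hpn (h4 ▸ hFr₀.hfm hmem)
  have hpre : IsPreconnected (ball (0 : ℂ) 1) := (convex_ball (0 : ℂ) 1).isPreconnected
  have hγall : ∀ l ∈ ball (0 : ℂ) 1, ‖γ l‖ = 1 := by
    intro l hl
    have hmax : IsMaxOn (norm ∘ γ) (ball (0 : ℂ) 1) 0 := by
      intro w hw
      simp only [Function.comp, mem_ofPred_eq]
      rw [hγ0]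
      exact hγ1 w hw
    have := Complex.norm_eqOn_of_isPreconnected_of_isMaxOn hpre isOpen_ball hγd' h0 hmax hl
    simp only [Function.comp, Function.const] at this
    rw [this, hγ0]
  -- the limit disc lies in the boundary
  have hGρ : ∀ l ∈ ball (0 : ℂ) 1, ρ (G l) = 0 := by
    intro l hl
    have hle : ρ (G l) ≤ 0 := by
      refine le_of_tendsto ((hρc.tendsto _).comp (hGl l hl)) (Eventually.of_forall fun j => ?_)
      have := hgm j l hl
      rw [hD.eq] at this
      exact le_of_lt this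
    refine le_antisymm hle ?_
    by_contra hlt
    rw [not_le] at hlt
    have hmem : G l ∈ Ω := by rw [hD.eq]; exact hlt
    have hc : ContinuousAt F₀ (G l) :=
      (hFr₀.hF.continuousOn).continuousAt (hΩo.mem_nhds hmem)
    have h2 := hc.tendsto.comp (hGl l hl)
    have h3 := tendsto_nhds_unique h2 (hγl l hl)
    have h4 := hFr₀.hFm hmem
    rw [mem_ball_zero_iff, h3, hγall l hl] at h4
    exact lt_irrefl _ h4
  -- the norm is at most that of p
  have hnorm : ∀ l ∈ ball (0 : ℂ) 1, ‖G l‖ ≤ ‖p‖ := by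
    intro l hl
    by_contra hlt
    rw [not_le] at hlt
    have hev : ∀ᶠ w in 𝓝 l, deriv G w = 0 := by
      have hc : ContinuousAt G l := hGd.continuousOn.continuousAt (isOpen_ball.mem_nhds hl)
      have h2 : ∀ᶠ w in 𝓝 l, ‖p‖ < ‖G w‖ := hc.norm.eventually (lt_mem_nhds hlt)
      filter_upwards [h2, isOpen_ball.mem_nhds hl] with w hw hw1
      by_contra hne
      exact absurd (hbad _ (bad_of hD.smooth hGd hGρ hw1 hne)) (not_le.2 hw)
    have han : AnalyticOnNhd ℂ (deriv G) (ball 0 1) :=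
      (hGd.deriv isOpen_ball).analyticOnNhd isOpen_ball
    have hzero := han.eqOn_zero_of_preconnected_of_eventuallyEq_zero hpre hl hev
    have hconst : ∀ w ∈ ball (0 : ℂ) 1, G w = G 0 := by
      intro w hw
      exact isOpen_ball.is_const_of_deriv_eq_zero hpre hGd hzero hw h0
    have h5 := hconst _ ht'mem
    rw [h5, hG0, sub_self, norm_zero] at hGt'
    exact absurd hGt' (not_le.2 hε)
  have hmax : IsMaxOn (norm ∘ G) (ball (0 : ℂ) 1) 0 := by
    intro w hw
    simp only [Function.comp, mem_ofPred_eq]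
    rw [hG0]
    exact hnorm w hw
  have h6 := Complex.eqOn_of_isPreconnected_of_isMaxOn_norm hpre isOpen_ball hGd h0 hmax ht'mem
  simp only [Function.const] at h6
  rw [h6, hG0, sub_self, norm_zero] at hGt'
  exact absurd hGt' (not_le.2 hε)

theorem t_far : S_far := by
  intro n Ω ρ q₀ hD hq₀
  have hρc : Continuous ρ := hD.smooth.continuous
  have hd1 : Continuous (fderiv ℝ ρ) := hD.smooth.continuous_fderiv (by norm_num)
  have hd2 : Continuous (fderiv ℝ (fderiv ℝ ρ)) :=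
    (hD.smooth.fderiv_right (m := 1) (by norm_num)).continuous_fderiv (by norm_num)
  obtain ⟨R, hR⟩ := hD.bdd.subset_closedBall (0 : V n)
  -- the zero set of ρ is bounded
  have hcl : ∀ q, ρ q = 0 → ‖q‖ ≤ R := by
    intro q hq
    have hne := hD.nz q hq
    obtain ⟨v, hv⟩ : ∃ v, fderiv ℝ ρ q v < 0 := by
      by_contra hcon
      push Not at hcon
      apply hne
      ext v
      have h1 := hcon v
      have h2 := hcon (-v)
      rw [map_neg] at h2
      simp only [zero_apply]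
      linarith
    have hder : HasDerivAt (fun s : ℝ => ρ (q + s • v)) (fderiv ℝ ρ q v) 0 := by
      have h1 : HasDerivAt (fun s : ℝ => q + s • v) v 0 := by
        have := ((hasDerivAt_id (0 : ℝ)).smul_const v).const_add q
        simpa using this
      have h2 : HasFDerivAt ρ (fderiv ℝ ρ q) (q + (0 : ℝ) • v) := by
        rw [zero_smul, add_zero]
        exact (hD.smooth.differentiable (by norm_num)).differentiableAt.hasFDerivAt
      exact h2.comp_hasDerivAt (0 : ℝ) h1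
    have hcont : Tendsto (fun s : ℝ => ‖q + s • v‖) (𝓝[>] 0) (𝓝 ‖q‖) := by
      have : Continuous (fun s : ℝ => ‖q + s • v‖) := by fun_prop
      have h3 := (this.tendsto 0).mono_left (nhdsWithin_le_nhds (s := Ioi (0 : ℝ)))
      simpa using h3
    refine le_of_tendsto hcont ?_
    have hneg : ∀ᶠ s : ℝ in 𝓝[>] 0, ρ (q + s • v) < 0 := by
      have h4 := hder.hasDerivWithinAt (s := Ioi 0)
      rw [hasDerivWithinAt_iff_tendsto_slope' (by simp)] at h4
      have h5 := h4.eventually (gt_mem_nhds hv)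
      filter_upwards [h5, self_mem_nhdsWithin] with s hs hs0
      rw [slope_def_field] at hs
      simp only [zero_smul, add_zero, sub_zero, hq] at hs
      have hs0' : (0 : ℝ) < s := hs0
      have := (div_lt_iff₀ hs0').1 hs
      linarith
    filter_upwards [hneg] with s hs
    have hm : q + s • v ∈ Ω := by rw [hD.eq]; exact hs
    have := hR hm
    rwa [mem_closedBall_zero_iff] at this
  -- compact set of bad pairs
  let K : Set (V n × V n) := (closedBall 0 R ×ˢ sphere 0 1) ∩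
    {q | ρ q.1 = 0 ∧ fderiv ℝ ρ q.1 q.2 = 0 ∧ fderiv ℝ ρ q.1 (Complex.I • q.2) = 0 ∧
      H4 ρ q.1 q.2 ≤ 0}
  have hK : IsCompact K := by
    refine ((isCompact_closedBall _ _).prod (isCompact_sphere _ _)).inter_right ?_
    refine (isClosed_eq (hρc.comp continuous_fst) continuous_const).inter ?_
    refine (isClosed_eq ((hd1.comp continuous_fst).clm_apply continuous_snd)
      continuous_const).inter ?_
    refine (isClosed_eq ((hd1.comp continuous_fst).clm_apply
      (continuous_snd.const_smul Complex.I)) continuous_const).inter ?_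
    have hH : Continuous (fun q : V n × V n => H4 ρ q.1 q.2) := by
      unfold H4
      exact (((hd2.comp continuous_fst).clm_apply continuous_snd).clm_apply continuous_snd).add
        (((hd2.comp continuous_fst).clm_apply (continuous_snd.const_smul Complex.I)).clm_apply
          (continuous_snd.const_smul Complex.I))
    exact isClosed_le hH continuous_const
  have hnormalize : ∀ q, Bad ρ q → ∃ w, (q, w) ∈ K := by
    rintro q ⟨hq, w, hw, h1, h2, h3⟩
    have hw0 : 0 < ‖w‖ := norm_pos_iff.2 hw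
    refine ⟨(‖w‖⁻¹ : ℝ) • w, ⟨⟨mem_closedBall_zero_iff.2 (hcl q hq), ?_⟩, hq, ?_, ?_, ?_⟩⟩
    · rw [mem_sphere_zero_iff_norm, norm_smul, norm_inv, norm_norm, inv_mul_cancel₀ hw0.ne']
    · change fderiv ℝ ρ q ((‖w‖⁻¹ : ℝ) • w) = 0
      rw [map_smul, h1, smul_zero]
    · change fderiv ℝ ρ q (Complex.I • ((‖w‖⁻¹ : ℝ) • w)) = 0
      rw [smul_comm, map_smul, h2, smul_zero]
    · change H4 ρ q ((‖w‖⁻¹ : ℝ) • w) ≤ 0
      have : H4 ρ q ((‖w‖⁻¹ : ℝ) • w) = ‖w‖⁻¹ ^ 2 * H4 ρ q w := by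
        unfold H4
        rw [smul_comm Complex.I (‖w‖⁻¹ : ℝ) w]
        simp only [map_smul, smul_apply, smul_eq_mul]
        ring
      rw [this]
      exact mul_nonpos_of_nonneg_of_nonpos (by positivity) h3
  obtain ⟨w₀, hw₀⟩ := hnormalize q₀ hq₀
  obtain ⟨⟨p, w⟩, hpw, hmax⟩ := hK.exists_isMaxOn ⟨_, hw₀⟩
    (f := fun q : V n × V n => ‖q.1‖) (continuous_fst.norm.continuousOn)
  refine ⟨p, ?_, ?_⟩
  · obtain ⟨⟨-, hw⟩, h1, h2, h3, h4⟩ := hpw
    refine ⟨h1, w, ?_, h2, h3, h4⟩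
    intro hw0
    change w ∈ sphere (0 : V n) 1 at hw
    rw [hw0, mem_sphere_zero_iff_norm, norm_zero] at hw
    exact zero_ne_one hw
  · intro q hq
    obtain ⟨w', hw'⟩ := hnormalize q hq
    have h5 : ‖((q, w') : V n × V n).1‖ ≤ ‖((p, w) : V n × V n).1‖ := hmax hw'
    simpa using h5

end Pool.Agent.W732.SB
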